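import Pool.Agent.E8helper86.CF.Dig

set_option autoImplicit false

/-! Prime tuples `x + A_j` for `x` in an arbitrary set, for almost all tuples of `A_j`. -/

namespace Pool.Agent.E8helper86.LF
open Finset
open Pool.Agent.TH872.Sq (qv dg ld fx th SD wD dig_wD sum_wD tuple_any almost th_nonneg th_le dg_zero)
open Pool.Agent.E8helper86.CF (conv small_count ev)
open Pool.Agent.H373R2.T7 (pz mem_pz lamz lamzI Vz Vz_pos)

open Classical in
/-- the number of the `x ∈ S` in `M` for which all the `x + c j` are prime -/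
noncomputable def cnt {r : ℕ} (S : Finset ℕ) (M : Set ℕ) (c : Fin r → ℕ) : ℕ :=
  (S.filter (fun x => x ∈ M ∧ ∀ j, (x + c j).Prime)).card

open Classical in
/-- the number of the `x ∈ S` in `M` for which no prime `p ≤ z` divides one of the `x + c j` -/
noncomputable def rgh {r : ℕ} (z : ℕ) (S : Finset ℕ) (M : Set ℕ) (c : Fin r → ℕ) : ℕ :=
  (S.filter (fun x => x ∈ M ∧ ∀ j, ∀ p : ℕ, p.Prime → p ≤ z → ¬ p ∣ x + c j)).card

lemma qv_eq (x A : ℕ) : qv 0 1 x + 1 * (A : ℤ) = ((x + A : ℕ) : ℤ) := by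
  unfold qv; push_cast; ring

lemma fx_eq (x A : ℕ) (hA : 1 ≤ A) : fx th (qv 0 1 x + 1 * (A : ℤ)) = th (x + A) := by
  rw [qv_eq]
  unfold fx
  rw [if_pos (by exact_mod_cast (by omega : 1 ≤ x + A)), Int.toNat_natCast]

lemma lz_eq (z x A : ℕ) (hA : 1 ≤ A) : lamzI z (qv 0 1 x + 1 * (A : ℤ)) = lamz z (x + A) := by
  rw [qv_eq]
  unfold lamzI
  rw [if_pos (by exact_mod_cast (by omega : 1 ≤ x + A)), Int.toNat_natCast]

open Classical in
lemma model {r : ℕ} (z : ℕ) (S : Finset ℕ) (M : Set ℕ) (c : Fin r → ℕ) :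
    ∑ x ∈ S, (if x ∈ M then (1 : ℝ) else 0) * ∏ j, lamz z (x + c j) = rgh z S M c / Vz z ^ r := by
  unfold rgh
  rw [card_filter]
  push_cast
  rw [sum_div]
  refine sum_congr rfl fun x _ => ?_
  by_cases hM : x ∈ M
  · by_cases h : ∀ j, ∀ p : ℕ, p.Prime → p ≤ z → ¬ p ∣ x + c j
    · rw [if_pos hM, if_pos ⟨hM, h⟩, one_mul, one_div, ← inv_pow]
      rw [prod_congr rfl (g := fun _ => (Vz z)⁻¹), prod_const, card_univ, Fintype.card_fin]
      intro j _
      unfold lamz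
      rw [if_pos]
      intro p hp
      rw [mem_pz] at hp
      exact h j p hp.2 hp.1
    · rw [if_pos hM, if_neg (fun hh => h hh.2)]
      push Not at h
      obtain ⟨j, p, hp, hpz, hd⟩ := h
      rw [zero_div, prod_eq_zero (mem_univ j), mul_zero]
      unfold lamz
      rw [if_neg]
      intro hh
      exact hh p (mem_pz.2 ⟨hpz, hp⟩) hd
  · rw [if_neg hM, if_neg (fun hh => hM hh.1), zero_mul, zero_div]

open Classical in
lemma weights {r : ℕ} (S : Finset ℕ) (M : Set ℕ) (c : Fin r → ℕ) (L a : ℝ) (ha : 0 ≤ L - a)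
    (h : ∀ x ∈ S, ∀ j, |Real.log ((x + c j : ℕ) : ℝ) - L| ≤ a) :
    (L - a) ^ r * cnt S M c ≤ ∑ x ∈ S, (if x ∈ M then (1 : ℝ) else 0) * ∏ j, th (x + c j) ∧
    ∑ x ∈ S, (if x ∈ M then (1 : ℝ) else 0) * ∏ j, th (x + c j) ≤ (L + a) ^ r * cnt S M c := by
  have h1 : ∑ x ∈ S, (if x ∈ M then (1 : ℝ) else 0) * ∏ j, th (x + c j) =
      ∑ x ∈ S.filter (fun x => x ∈ M ∧ ∀ j, (x + c j).Prime), ∏ j, Real.log ((x + c j : ℕ) : ℝ) := by
    rw [sum_filter]
    refine sum_congr rfl fun x _ => ?_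
    by_cases hM : x ∈ M
    · by_cases hp : ∀ j, (x + c j).Prime
      · rw [if_pos hM, if_pos ⟨hM, hp⟩, one_mul]
        refine prod_congr rfl fun j _ => ?_
        unfold th
        rw [if_pos (hp j)]
      · rw [if_pos hM, if_neg (fun hh => hp hh.2)]
        push Not at hp
        obtain ⟨j, hj⟩ := hp
        rw [prod_eq_zero (mem_univ j), mul_zero]
        unfold th
        rw [if_neg hj]
    · rw [if_neg hM, if_neg (fun hh => hM hh.1), zero_mul]
  rw [h1]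
  unfold cnt
  have hc : ∀ t : ℝ, t ^ r = ∏ _j : Fin r, t := by
    intro t
    rw [prod_const, card_univ, Fintype.card_fin]
  constructor
  · rw [mul_comm, ← nsmul_eq_mul]
    apply card_nsmul_le_sum
    intro x hx
    rw [mem_filter] at hx
    rw [hc]
    apply prod_le_prod (fun _ _ => ha)
    intro j _
    have := h x hx.1 j
    rw [abs_le] at this
    linarith [this.1]
  · rw [mul_comm, ← nsmul_eq_mul]
    apply sum_le_card_nsmul
    intro x hx
    rw [mem_filter] at hx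
    rw [hc]
    apply prod_le_prod
    · intro j _
      exact Real.log_natCast_nonneg _
    · intro j _
      have := h x hx.1 j
      rw [abs_le] at this
      linarith [this.2]

/-- the logarithms of the values -/
lemma log_val (b k F₀ U x c X : ℕ) (hb : 2 ≤ b) (hk : 1 ≤ k) (hx : x < b ^ k) (hX1 : b ^ k ≤ X) (hX2 : X ≤ F₀ * b ^ k)
    (hc : X < c * k ^ U) (hcX : c ≤ X) (L C : ℝ) (hL : |L - k * Real.log b| ≤ C) :
    |Real.log ((x + c : ℕ) : ℝ) - L| ≤ U * Real.log k + Real.log (F₀ + 1) + C := by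
  have hb0 : (0 : ℝ) < b := by exact_mod_cast (by omega : 0 < b)
  have hk0 : (0 : ℝ) < k := by exact_mod_cast hk
  have hY : (0 : ℝ) < (b : ℝ) ^ k := by positivity
  have hlY : Real.log ((b : ℝ) ^ k) = k * Real.log b := by
    rw [Real.log_pow]
  have hlk : 0 ≤ Real.log k := Real.log_natCast_nonneg k
  have hlF : 0 ≤ Real.log ((F₀ : ℝ) + 1) := by
    apply Real.log_nonneg
    have : (0 : ℝ) ≤ F₀ := Nat.cast_nonneg _
    linarith
  have hU : (0 : ℝ) ≤ U := Nat.cast_nonneg _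
  have hc0 : 0 < c := by
    rcases Nat.eq_zero_or_pos c with h | h
    · rw [h, zero_mul] at hc; omega
    · exact h
  -- lower bound
  have h1 : (b : ℝ) ^ k ≤ ((x + c : ℕ) : ℝ) * (k : ℝ) ^ U := by
    have e1 : b ^ k ≤ (x + c) * k ^ U :=
      hX1.trans (hc.le.trans (Nat.mul_le_mul_right _ (Nat.le_add_left _ _)))
    exact_mod_cast e1
  have h2 : ((x + c : ℕ) : ℝ) ≤ ((F₀ : ℝ) + 1) * (b : ℝ) ^ k := by
    have e2 : x + c ≤ (F₀ + 1) * b ^ k := by
      calc x + c ≤ b ^ k + F₀ * b ^ k := Nat.add_le_add hx.le (hcX.trans hX2)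
        _ = _ := by ring
    exact_mod_cast e2
  have hv : (0 : ℝ) < ((x + c : ℕ) : ℝ) := by exact_mod_cast (by omega : 0 < x + c)
  have h3 := Real.log_le_log hY h1
  rw [hlY, Real.log_mul hv.ne' (by positivity), Real.log_pow] at h3
  have h4 := Real.log_le_log hv h2
  have hF1 : ((F₀ : ℝ) + 1) ≠ 0 := by
    have : (0 : ℝ) ≤ F₀ := Nat.cast_nonneg _
    linarith
  rw [Real.log_mul hF1 hY.ne', hlY] at h4
  rw [abs_le] at hL ⊢
  have hUk : 0 ≤ (U : ℝ) * Real.log k := mul_nonneg hU hlk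
  constructor <;> linarith [hL.1, hL.2]

open Classical in
theorem core (b : ℕ) (hb : 2 ≤ b) (r F₀ U K : ℕ) (C ε : ℝ) (hC : 0 ≤ C) (hε : 0 < ε) :
    ∃ B : ℕ, ∀ E : ℕ, ∃ K₀ : ℕ, ∀ k : ℕ, K₀ ≤ k → ∀ z : ℕ, (k : ℝ) ^ B ≤ z → (z : ℝ) ≤ (k : ℝ) ^ E →
    ∀ D : ℕ → Finset ℕ, (∀ i < k, D i ⊆ range b ∧ 2 ≤ (D i).card) →
    ∀ X : ℕ, b ^ k ≤ X → X ≤ F₀ * b ^ k → ∀ L : ℝ, |L - k * Real.log b| ≤ C → ∀ M : Set ℕ,
    (((Fintype.piFinset (fun _ : Fin r => Icc 1 X)).filter (fun c =>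
      ¬ |(cnt (SD b D k) M c : ℝ) - rgh z (SD b D k) M c / (Vz z * L) ^ r| ≤
        ε * (rgh z (SD b D k) M c / (Vz z * L) ^ r) + ((SD b D k).card : ℝ) / (k : ℝ) ^ K)).card : ℝ) ≤
      (X : ℝ) ^ r / (k : ℝ) ^ U := by
  have hld : ∀ _j : Fin r, ld 0 1 ≠ 0 := fun _ => by decide
  obtain ⟨B, h1⟩ := tuple_any b hb (1 / 2) (by norm_num) r (fun _ => 0) (fun _ => 1) hld ∅ (fun _ => th)
    (fun j hj => absurd hj (notMem_empty j)) (fun _ _ n => ⟨le_rfl, th_le n⟩) F₀ (2 * (U + 1 + K))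
  refine ⟨B, fun E => ?_⟩
  obtain ⟨K1, h2⟩ := h1 E
  -- the final range of k
  obtain ⟨K2, h3⟩ := ev (((r : ℝ) + 1) * (1 + ε) * (U + 2 : ℕ)) (((r : ℝ) + 1) * (1 + ε) * (Real.log (F₀ + 1) + C) + ε * C) (ε * (1 / 2)) (by positivity)
  obtain ⟨K3, h4⟩ := ev ((U + 2 : ℕ) : ℝ) (Real.log (F₀ + 1) + C + C + 1) (1 / 2) (by norm_num)
  refine ⟨K1 + K2 + K3 + r + 2, fun k hk z hz1 hz2 D hD X hX1 hX2 L hL M => ?_⟩
  have hkr : (r : ℝ) + 1 ≤ k := by exact_mod_cast (by omega : r + 1 ≤ k)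
  have hk0 : (0 : ℝ) < k := by exact_mod_cast (by omega : 0 < k)
  have hk1 : (1 : ℝ) ≤ k := by exact_mod_cast (by omega : 1 ≤ k)
  obtain ⟨S, hS⟩ : ∃ S, S = SD b D k := ⟨_, rfl⟩
  have hS0 : (0 : ℝ) ≤ (S.card : ℝ) := Nat.cast_nonneg _
  have h5 := h2 k (by omega) z hz1 hz2 (wD D k) (dig_wD b hb D k hD) 0 (fun _ => 1) (fun _ => Or.inl rfl) (fun _ => X)
    (fun _ => ⟨by rw [dg_zero, one_mul]; exact hX1, by rw [dg_zero, one_mul]; exact hX2⟩) (fun n => if n ∈ M then 1 else 0)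
    (fun n => by split_ifs <;> norm_num)
  simp only [notMem_empty, if_false, sum_wD b hb D k hD] at h5
  rw [← hS] at h5 ⊢
  rw [prod_const, card_univ, Fintype.card_fin] at h5
  obtain ⟨g, hg⟩ : ∃ g : (Fin r → ℕ) → ℝ, ∀ c, g c = 1 / (S.card : ℝ) * ∑ n ∈ S, (if n ∈ M then (1 : ℝ) else 0) *
      (∏ j, fx th (qv 0 1 n + 1 * (c j : ℤ)) - ∏ j, lamzI z (qv 0 1 n + 1 * (c j : ℤ))) := ⟨_, fun _ => rfl⟩
  simp only [← hg] at h5
  have h6 := almost (Fintype.piFinset (fun _ : Fin r => Icc 1 X)) g ((X : ℝ) ^ r) k (U + 1 + K) (by omega) h5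
    (fun c => 1 / (k : ℝ) ^ (U + 1 + K) < |g c|) (fun c _ hc => hc)
  have h7 := small_count r X (k ^ (U + 2)) (Nat.one_le_pow _ _ (by omega))
  -- the logarithmic weights
  obtain ⟨a, ha⟩ : ∃ a : ℝ, a = (U + 2 : ℕ) * Real.log k + Real.log (F₀ + 1) + C := ⟨_, rfl⟩
  have hlF : 0 ≤ Real.log ((F₀ : ℝ) + 1) := by
    apply Real.log_nonneg
    have : (0 : ℝ) ≤ F₀ := Nat.cast_nonneg _
    linarith
  have ha0 : 0 ≤ a := by
    rw [ha]
    have := Real.log_natCast_nonneg k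
    positivity
  have hlb : 0.69 ≤ Real.log b := by
    have e1 : Real.log 2 ≤ Real.log b := Real.log_le_log (by norm_num) (by exact_mod_cast hb)
    have := Real.log_two_gt_d9
    linarith
  have hLk : k * (1 / 2) + 0.1 * k - C ≤ L := by
    rw [abs_le] at hL
    have e1 : (k : ℝ) * 0.69 ≤ k * Real.log b := by
      apply mul_le_mul_of_nonneg_left hlb (by linarith)
    linarith [hL.1]
  have h3' := h3 k (by omega)
  have h4' := h4 k (by omega)
  have hLa : 1 ≤ L - a := by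
    rw [ha]
    linarith
  have hLr : ((r : ℝ) + 1) * a * (1 + ε) ≤ ε * L := by
    have e1 : ((r : ℝ) + 1) * a * (1 + ε) = ((r : ℝ) + 1) * (1 + ε) * (U + 2 : ℕ) * Real.log k +
        ((r : ℝ) + 1) * (1 + ε) * (Real.log (F₀ + 1) + C) := by rw [ha]; ring
    have e2 : ε * (k * (1 / 2) - C) ≤ ε * L := mul_le_mul_of_nonneg_left (by linarith) hε.le
    rw [e1]
    linarith
  have hsub : (Fintype.piFinset (fun _ : Fin r => Icc 1 X)).filter (fun c =>
      ¬ |(cnt S M c : ℝ) - rgh z S M c / (Vz z * L) ^ r| ≤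
        ε * (rgh z S M c / (Vz z * L) ^ r) + (S.card : ℝ) / (k : ℝ) ^ K) ⊆
      (Fintype.piFinset (fun _ : Fin r => Icc 1 X)).filter (fun c => 1 / (k : ℝ) ^ (U + 1 + K) < |g c|) ∪
      (Fintype.piFinset (fun _ : Fin r => Icc 1 X)).filter (fun c => ∃ j, c j * k ^ (U + 2) ≤ X) := by
    intro c hc
    rw [mem_filter] at hc
    rw [mem_union, mem_filter, mem_filter]
    by_contra hcon
    push Not at hcon
    obtain ⟨g1, g2⟩ := hcon
    have g1' := g1 hc.1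
    have g2' := g2 hc.1
    apply hc.2
    have hcX := hc.1
    rw [Fintype.mem_piFinset] at hcX
    have hc1 : ∀ j, 1 ≤ c j := fun j => (mem_Icc.1 (hcX j)).1
    rcases S.eq_empty_or_nonempty with hSe | hSn
    · rw [hSe]
      simp [cnt, rgh]
    have hSc : (0 : ℝ) < (S.card : ℝ) := by exact_mod_cast hSn.card_pos
    have hgc : g c = 1 / (S.card : ℝ) * (∑ x ∈ S, (if x ∈ M then (1 : ℝ) else 0) * ∏ j, th (x + c j) -
        rgh z S M c / Vz z ^ r) := by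
      rw [hg, ← model, ← sum_sub_distrib]
      congr 1
      refine sum_congr rfl fun x _ => ?_
      rw [← mul_sub]
      congr 2
      · exact prod_congr rfl fun j _ => fx_eq x (c j) (hc1 j)
      · exact prod_congr rfl fun j _ => lz_eq z x (c j) (hc1 j)
    obtain ⟨w1, w2⟩ := weights S M c L a (by linarith) (by
      intro x hx j
      have hx' : x < b ^ k := by
        rw [hS] at hx
        unfold SD at hx
        exact mem_range.1 (mem_filter.1 hx).1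
      rw [ha]
      exact log_val b k F₀ (U + 2) x (c j) X hb (by omega) hx' hX1 hX2 (g2' j) (mem_Icc.1 (hcX j)).2 L C hL)
    obtain ⟨W, hW⟩ : ∃ W, W = ∑ x ∈ S, (if x ∈ M then (1 : ℝ) else 0) * ∏ j, th (x + c j) := ⟨_, rfl⟩
    rw [← hW] at hgc w1 w2
    have hV := Vz_pos z
    have hdev : |W - rgh z S M c / Vz z ^ r| ≤ (S.card : ℝ) / (k : ℝ) ^ K := by
      rw [hgc, abs_mul, abs_of_nonneg (by positivity : (0 : ℝ) ≤ 1 / (S.card : ℝ)), one_div_mul_eq_div, div_le_iff₀ hSc] at g1'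
      refine g1'.trans ?_
      rw [one_div_mul_eq_div]
      apply div_le_div_of_nonneg_left hS0 (by positivity)
      exact pow_le_pow_right₀ hk1 (by omega)
    have hfin := conv r (cnt S M c) W (rgh z S M c / Vz z ^ r) ((S.card : ℝ) / (k : ℝ) ^ K) L a ε (Nat.cast_nonneg _)
      (by positivity) (by positivity) ha0 hε hLa hLr w1 w2 hdev
    rw [div_div, ← mul_pow] at hfin
    exact hfin
  have h8 : ((Fintype.piFinset (fun _ : Fin r => Icc 1 X)).filter (fun c => 1 / (k : ℝ) ^ (U + 1 + K) < |g c|)).card +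
      ((Fintype.piFinset (fun _ : Fin r => Icc 1 X)).filter (fun c => ∃ j, c j * k ^ (U + 2) ≤ X)).card ≤
      ((X : ℝ) ^ r / (k : ℝ) ^ (U + 1 + K) + r * ((X : ℝ) ^ r / ((k ^ (U + 2) : ℕ) : ℝ)) : ℝ) := add_le_add h6 h7
  refine le_trans (show _ ≤ _ by exact_mod_cast (card_le_card hsub).trans (card_union_le _ _)) (h8.trans ?_)
  have hX0 : (0 : ℝ) ≤ (X : ℝ) ^ r := by positivity
  have e1 : (X : ℝ) ^ r / (k : ℝ) ^ (U + 1 + K) ≤ (X : ℝ) ^ r / (k : ℝ) ^ (U + 1) :=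
    div_le_div_of_nonneg_left hX0 (by positivity) (pow_le_pow_right₀ hk1 (by omega))
  have e2 : (X : ℝ) ^ r / (k : ℝ) ^ (U + 1) = (X : ℝ) ^ r / (k : ℝ) ^ U * (1 / k) := by
    rw [pow_succ]; field_simp
  have e3 : r * ((X : ℝ) ^ r / ((k ^ (U + 2) : ℕ) : ℝ)) = (X : ℝ) ^ r / (k : ℝ) ^ U * (r / k ^ 2) := by
    push_cast
    rw [pow_add]; field_simp
  have e4 : (1 : ℝ) / k + r / k ^ 2 ≤ 1 := by
    rw [div_add_div _ _ hk0.ne' (by positivity), div_le_one (by positivity)]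
    have hr0 : (0 : ℝ) ≤ r := Nat.cast_nonneg r
    have e5 : (k : ℝ) * k * (r + 1) ≤ k * k * k := mul_le_mul_of_nonneg_left hkr (by positivity)
    have e6 : (k : ℝ) * r * 1 ≤ k * r * k := mul_le_mul_of_nonneg_left hk1 (by positivity)
    nlinarith
  calc (X : ℝ) ^ r / (k : ℝ) ^ (U + 1 + K) + r * ((X : ℝ) ^ r / ((k ^ (U + 2) : ℕ) : ℝ)) ≤
        (X : ℝ) ^ r / (k : ℝ) ^ U * (1 / k + r / k ^ 2) := by
        rw [mul_add, ← e2, ← e3]
        linarith
    _ ≤ (X : ℝ) ^ r / (k : ℝ) ^ U * 1 := mul_le_mul_of_nonneg_left e4 (by positivity)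
    _ = _ := mul_one _

end Pool.Agent.E8helper86.LF
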