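import Pool.Agent.E8helper86.LF.Dig

set_option autoImplicit false

/-! The relative form. -/

namespace Pool.Agent.E8helper86.LF
open Finset
open Pool.Agent.TH872.Sq (SD)
open Pool.Agent.H373R2.T7 (Vz Vz_pos)
open Pool.Agent.E8helper86.CF (win)

lemma Vz_le_one (z : ℕ) : Vz z ≤ 1 := by
  unfold Vz
  apply Finset.prod_le_one
  · intro p hp
    have h2 : (2 : ℝ) ≤ p := by exact_mod_cast (Pool.Agent.H373R2.T7.mem_pz.1 hp).2.two_le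
    rw [sub_nonneg, div_le_one (by linarith)]
    linarith
  · intro p hp
    have : 0 ≤ 1 / (p : ℝ) := by positivity
    linarith

open Classical in
theorem digR (b : ℕ) (hb : 2 ≤ b) (r F₀ U K W : ℕ) (ε : ℝ) (hε : 0 < ε) :
    ∃ B : ℕ, ∀ E : ℕ, ∃ K₀ : ℕ, ∀ k : ℕ, K₀ ≤ k → ∀ z : ℕ, (k : ℝ) ^ B ≤ z → (z : ℝ) ≤ (k : ℝ) ^ E →
    ∀ D : ℕ → Finset ℕ, (∀ i < k, D i ⊆ range b ∧ 2 ≤ (D i).card) →
    ∀ X : ℕ, b ^ k ≤ X → X ≤ F₀ * b ^ k → ∀ m : ℕ, (m : ℝ) ≤ (k : ℝ) ^ W → ∀ M : Fin m → Set ℕ,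
    (((Fintype.piFinset (fun _ : Fin r => Icc 1 X)).filter (fun c =>
      ¬ ∀ l : Fin m, ∀ y₁ y₂ q a : ℕ, 1 ≤ q → (q : ℝ) ≤ (k : ℝ) ^ K →
        ((SD b D k).card : ℝ) / (k : ℝ) ^ K ≤ rgh z (SD b D k) (win (M l) y₁ y₂ q a) c →
        |(cnt (SD b D k) (win (M l) y₁ y₂ q a) c : ℝ) -
          rgh z (SD b D k) (win (M l) y₁ y₂ q a) c / (Vz z * Real.log ((b : ℝ) ^ k)) ^ r| ≤
        ε * (rgh z (SD b D k) (win (M l) y₁ y₂ q a) c / (Vz z * Real.log ((b : ℝ) ^ k)) ^ r))).card : ℝ) ≤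
      (X : ℝ) ^ r / (k : ℝ) ^ U := by
  obtain ⟨B, h1⟩ := dig b hb r F₀ U (K + 2 * r + 1) W (ε / 2) (by positivity)
  refine ⟨B, fun E => ?_⟩
  obtain ⟨K1, h2⟩ := h1 E
  obtain ⟨K2, hK2⟩ := exists_nat_ge (2 / ε)
  obtain ⟨K3, h3⟩ := VL_one b hb E
  refine ⟨K1 + K2 + K3 + b + 1, fun k hk z hz1 hz2 D hD X hX1 hX2 m hm M => ?_⟩
  refine le_trans ?_ (h2 k (by omega) z hz1 hz2 D hD X hX1 hX2 m hm M)
  rw [Nat.cast_le]
  apply card_le_card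
  intro c hc
  rw [mem_filter] at hc ⊢
  refine ⟨hc.1, fun hcon => hc.2 ?_⟩
  intro l y₁ y₂ q a hq hqK hR
  have hk1 : (1 : ℝ) ≤ k := by exact_mod_cast (by omega : 1 ≤ k)
  have hk0 : (0 : ℝ) < k := by linarith
  have hbk : (b : ℝ) ≤ k := by exact_mod_cast (by omega : b ≤ k)
  have hg := hcon l y₁ y₂ q a hq (hqK.trans (pow_le_pow_right₀ hk1 (by omega)))
  refine hg.trans ?_
  have hz : 1 ≤ z := by
    have : (1 : ℝ) ≤ z := le_trans (one_le_pow₀ hk1) hz1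
    exact_mod_cast this
  have hP1 : 1 ≤ (Vz z * Real.log ((b : ℝ) ^ k)) ^ r := one_le_pow₀ (h3 k (by omega) z hz hz2)
  have hb0 : (1 : ℝ) ≤ b := by exact_mod_cast (by omega : 1 ≤ b)
  have hlogb : Real.log b ≤ b := (Real.log_le_self (by linarith))
  have hL : Vz z * Real.log ((b : ℝ) ^ k) ≤ (k : ℝ) ^ 2 := by
    rw [Real.log_pow]
    have hl0 : 0 ≤ (k : ℝ) * Real.log b := mul_nonneg hk0.le (Real.log_nonneg hb0)
    calc Vz z * (k * Real.log b) ≤ 1 * (k * Real.log b) := mul_le_mul_of_nonneg_right (Vz_le_one z) hl0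
      _ ≤ 1 * (k * k) := by
          apply mul_le_mul_of_nonneg_left _ (by norm_num)
          exact mul_le_mul_of_nonneg_left (hlogb.trans hbk) hk0.le
      _ = _ := by ring
  have hL0 : 0 ≤ Vz z * Real.log ((b : ℝ) ^ k) := by
    apply mul_nonneg (Vz_pos z).le
    exact Real.log_nonneg (one_le_pow₀ hb0)
  have hP2 : (Vz z * Real.log ((b : ℝ) ^ k)) ^ r ≤ (k : ℝ) ^ (2 * r) := by
    rw [pow_mul]
    exact pow_le_pow_left₀ hL0 hL r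
  obtain ⟨P, hP⟩ : ∃ P, P = (Vz z * Real.log ((b : ℝ) ^ k)) ^ r := ⟨_, rfl⟩
  rw [← hP] at hP1 hP2 ⊢
  obtain ⟨R, hRd⟩ : ∃ R : ℝ, R = rgh z (SD b D k) (win (M l) y₁ y₂ q a) c := ⟨_, rfl⟩
  rw [← hRd] at hR ⊢
  have hS0 : (0 : ℝ) ≤ ((SD b D k).card : ℝ) := Nat.cast_nonneg _
  have hP0 : 0 < P := by linarith
  have hkε : 1 ≤ ε / 2 * k := by
    have : 2 / ε ≤ k := hK2.trans (by exact_mod_cast (by omega : K2 ≤ k))
    rw [div_le_iff₀ hε] at this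
    linarith
  have key : ((SD b D k).card : ℝ) / (k : ℝ) ^ (K + 2 * r + 1) ≤ ε / 2 * (R / P) := by
    have e1 : ((SD b D k).card : ℝ) / (k : ℝ) ^ K / (k : ℝ) ^ (2 * r) ≤ R / P :=
      div_le_div₀ (le_trans (by positivity) hR) hR hP0 hP2
    calc ((SD b D k).card : ℝ) / (k : ℝ) ^ (K + 2 * r + 1) ≤
          ε / 2 * k * (((SD b D k).card : ℝ) / (k : ℝ) ^ (K + 2 * r + 1)) :=
          le_mul_of_one_le_left (by positivity) hkε
      _ = ε / 2 * (((SD b D k).card : ℝ) / (k : ℝ) ^ K / (k : ℝ) ^ (2 * r)) := by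
          rw [pow_succ, pow_add]
          field_simp
      _ ≤ _ := mul_le_mul_of_nonneg_left e1 (by positivity)
  linarith

end Pool.Agent.E8helper86.LF
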